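import Mathlib
import Pool.Agent.H99.QI

set_option autoImplicit false

namespace Pool.Agent.Results.MP_49fc99_mp.Counter

open Matrix Finset Pool.Agent.H99.QI
open scoped ComplexOrder

/-- three qubits -/
abbrev Mat := Matrix (Fin 8) (Fin 8) ℂ

/-- embedding of the qubit -/
def V : Matrix (Fin 8) (Fin 2) ℂ := Matrix.of fun i j => if i.val = j.val then 1 else 0

/-- a + x X + y Y + z Z on the first two basis vectors -/
noncomputable def blk (a x y z : ℝ) : Mat :=
  V * !![((a + z : ℝ) : ℂ), x - y * Complex.I; x + y * Complex.I, ((a - z : ℝ) : ℂ)] * Vᴴ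

lemma blk_psd (a x y z : ℝ) (ha : 0 ≤ a) (h : x ^ 2 + y ^ 2 + z ^ 2 ≤ a ^ 2) :
    (blk a x y z).PosSemidef := by
  have h1 : |z| ≤ a := abs_le_of_sq_le_sq' (by nlinarith) ha |> abs_le.2
  have h2 := abs_le.1 h1
  exact (psd_two (a + z) (a - z) x y (by linarith) (by linarith)
    (by nlinarith)).mul_mul_conjTranspose_same V

lemma blk_eq (a x y z : ℝ) : blk a x y z = Matrix.of fun i j =>
    if i = 0 then (if j = 0 then ((a + z : ℝ) : ℂ) else if j = 1 then x - y * Complex.I else 0)
    else if i = 1 then (if j = 0 then x + y * Complex.I else if j = 1 then ((a - z : ℝ) : ℂ) else 0)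
    else 0 := by
  ext i j
  fin_cases i <;> fin_cases j <;> simp [blk, V, mul_apply, Fin.sum_univ_two]

/-- a real diagonal matrix supported on the classical symbols -/
noncomputable def dg (f : Fin 8 → ℝ) : Mat := diagonal fun i => (f i : ℂ)

lemma dg_psd (f : Fin 8 → ℝ) (hf : ∀ i, 0 ≤ f i) : (dg f).PosSemidef :=
  PosSemidef.diagonal fun i => by simpa using hf i

/-- sign of a bit -/
def sg (b : Bool) : ℝ := if b then -1 else 1

/-- the erased coordinate (3 if none) -/
def er (x : Fin 3 → Bool) : Fin 4 :=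
  if x 1 = false ∧ x 2 = false then 0 else if x 0 = false ∧ x 2 = true then 1
  else if x 0 = true ∧ x 1 = true then 2 else 3

/-- the classical symbol -/
def sy (x : Fin 3 → Bool) : Fin 8 :=
  if er x = 0 then 2 else if er x = 1 then 3 else if er x = 2 then 4 else if x 0 = false then 5 else 6

/-- length of a Bloch component -/
noncomputable def ln (x : Fin 3 → Bool) (i : Fin 3) : ℝ :=
  if (er x).val = i.val then 7 / 24 else 5 / 24

/-- the encoding -/
noncomputable def rho (x : Fin 3 → Bool) : Mat :=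
  blk (5 / 12) (sg (x 0) * ln x 0) (sg (x 1) * ln x 1) (sg (x 2) * ln x 2)
    + dg fun j => if j = sy x then 1 / 6 else 0

/-- probability of answering false on each classical symbol -/
noncomputable def pr (i : Fin 3) : Fin 8 → ℝ :=
  ![![0, 0, 1 / 2, 1, 0, 1, 0, 1], ![0, 0, 1, 1 / 2, 0, 0, 1, 1], ![0, 0, 1, 0, 1 / 2, 1, 0, 1]] i

/-- the decoding measurements -/
noncomputable def dec (i : Fin 3) (b : Bool) : Mat :=
  blk (1 / 2) (if i = 0 then sg b / 2 else 0) (if i = 1 then sg b / 2 else 0)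
    (if i = 2 then sg b / 2 else 0)
    + dg fun j => if j.val < 2 then 0 else if b then 1 - pr i j else pr i j

lemma tr_blk (Q : Mat) (a x y z : ℝ) : (Q * blk a x y z).trace
    = Q 0 0 * (a + z : ℝ) + Q 0 1 * (x + y * Complex.I) + Q 1 0 * (x - y * Complex.I)
      + Q 1 1 * (a - z : ℝ) := by
  rw [blk_eq]
  simp [trace, mul_apply, Fin.sum_univ_eight]
  ring

lemma tr_dg (Q : Mat) (k : Fin 8) (c : ℝ) :
    (Q * dg fun j => if j = k then c else 0).trace = Q k k * c := by
  simp only [trace, dg, diag_apply, mul_diagonal]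
  rw [sum_eq_single k]
  · simp
  · intro b _ hb; simp [hb]
  · simp

lemma all3 (P : (Fin 3 → Bool) → Prop) (h : ∀ a b c, P ![a, b, c]) (x : Fin 3 → Bool) : P x := by
  have : x = ![x 0, x 1, x 2] := by
    ext i; fin_cases i <;> rfl
  rw [this]; exact h _ _ _

lemma sum3 (f : (Fin 3 → Bool) → ℝ) : ∑ y, f y = ∑ a, ∑ b, ∑ c, f ![a, b, c] := by
  rw [← Finset.sum_product', ← Finset.sum_product']
  refine (Finset.sum_bij' (fun p _ => ![p.1.1, p.1.2, p.2]) (fun y _ => ((y 0, y 1), y 2))
    (by simp) (by simp) (by simp) ?_ (by simp)).symm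
  intro y _
  ext i; fin_cases i <;> rfl

lemma fail (Q : (Fin 3 → Bool) → Mat) (hQ : ∀ y, (Q y).PosSemidef) (hS : ∑ y, Q y = 1) :
    ∃ (x : Fin 3 → Bool) (i : Fin 3), 2 * (19 / 24 : ℝ) * (1 - 19 / 24)
      < ∑ y, if y i ≠ x i then (Q y * rho x).trace.re else 0 := by
  by_contra hc
  push Not at hc
  have hb : ∀ y : Fin 3 → Bool, 0 ≤ ((Q y : Mat) *
      blk (26 / 15) (-sg (y 0)) (-sg (y 1)) (-sg (y 2))).trace.re := fun y =>
    trace_mul_re_nonneg (hQ y) (blk_psd _ _ _ _ (by norm_num) (by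
      cases y 0 <;> cases y 1 <;> cases y 2 <;> simp [sg] <;> norm_num))
  have hsum := Finset.sum_nonneg (s := univ) fun y _ => hb y
  have e : ∀ j k : Fin 8, ∑ y, ((Q y : Mat) j k).re = if j = k then 1 else 0 := by
    intro j k
    have := congrArg (fun M : Mat => (M j k).re) hS
    simp only [Matrix.sum_apply, Complex.re_sum, one_apply] at this
    rw [this]
    split_ifs <;> simp
  have e0 := e 0 0
  have e1 := e 1 1
  have e2 := e 2 2
  have e3 := e 3 3
  have e4 := e 4 4
  have c1 := hc ![false, false, false] 0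
  have c2 := hc ![true, false, false] 0
  have c3 := hc ![false, false, true] 1
  have c4 := hc ![false, true, true] 1
  have c5 := hc ![true, true, false] 2
  have c6 := hc ![true, true, true] 2
  have e01 := e 0 1
  have e10 := e 1 0
  have e' : ∀ j k : Fin 8, ∑ y, ((Q y : Mat) j k).im = 0 := by
    intro j k
    have := congrArg (fun M : Mat => (M j k).im) hS
    simp only [Matrix.sum_apply, Complex.im_sum, one_apply] at this
    rw [this]
    split_ifs <;> simp
  have f01 := e' 0 1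
  have f10 := e' 1 0
  simp only [rho, Matrix.mul_add, trace_add, tr_blk, tr_dg] at c1 c2 c3 c4 c5 c6 hsum
  rw [sum3] at c1 c2 c3 c4 c5 c6 hsum e0 e1 e2 e3 e4 e01 e10 f01 f10
  simp [sg, ln, er, sy] at c1 c2 c3 c4 c5 c6 hsum e0 e1 e2 e3 e4 e01 e10 f01 f10
  linarith

/-- Negated form of Q1 with n = m = 3 and p = 19/24. -/
theorem result : ∃ (n m : ℕ) (p : ℝ)
    (ρ : (Fin n → Bool) → Matrix (Fin (2 ^ m)) (Fin (2 ^ m)) ℂ),
    1 ≤ n ∧ 1 ≤ m ∧ 1 / 2 < p ∧ p ≤ 1 ∧
    (∀ x, (ρ x).PosSemidef ∧ (ρ x).trace = 1) ∧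
    (∀ i : Fin n, ∃ M : Bool → Matrix (Fin (2 ^ m)) (Fin (2 ^ m)) ℂ,
      (∀ b, (M b).PosSemidef) ∧ M false + M true = 1 ∧ ∀ x, p ≤ (M (x i) * ρ x).trace.re) ∧
    ∀ Q : (Fin n → Bool) → Matrix (Fin (2 ^ m)) (Fin (2 ^ m)) ℂ,
      (∀ y, (Q y).PosSemidef) → ∑ y, Q y = 1 →
      ∃ (x : Fin n → Bool) (i : Fin n),
        2 * p * (1 - p) < ∑ y, if y i ≠ x i then (Q y * ρ x).trace.re else 0 := by
  refine ⟨3, 3, 19 / 24, rho, by norm_num, by norm_num, by norm_num, by norm_num, fun x => ⟨?_, ?_⟩,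
    fun i => ⟨dec i, fun b => ?_, ?_, fun x => ?_⟩, fun Q hQ hS => ?_⟩
  · refine (blk_psd _ _ _ _ (by norm_num) ?_).add (dg_psd _ fun j => by positivity)
    induction x using all3 with
    | h a b c => cases a <;> cases b <;> cases c <;> simp [sg, ln, er] <;> norm_num
  · change (rho x : Mat).trace = 1
    rw [← Matrix.one_mul (rho x), rho, Matrix.mul_add, trace_add, tr_blk, tr_dg]
    simp
    ring
  · refine (blk_psd _ _ _ _ (by norm_num) ?_).add (dg_psd _ fun j => ?_)
    · fin_cases i <;> cases b <;> simp [sg] <;> norm_num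
    · fin_cases i <;> cases b <;> fin_cases j <;> simp [pr] <;> norm_num
  · change (dec i false + dec i true : Mat) = 1
    ext j k
    simp only [dec, blk_eq, dg, Matrix.add_apply, of_apply, diagonal_apply, one_apply]
    fin_cases i <;> fin_cases j <;> fin_cases k <;> simp [sg] <;> ring
  · change _ ≤ ((dec i (x i) : Mat) * rho x).trace.re
    rw [rho, Matrix.mul_add, trace_add, tr_blk, tr_dg]
    induction x using all3 with
    | h a b c =>
      fin_cases i <;> cases a <;> cases b <;> cases c <;>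
        simp [dec, blk_eq, dg, sg, ln, er, sy, pr] <;> norm_num
  · exact fail Q hQ hS

end Pool.Agent.Results.MP_49fc99_mp.Counter
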